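import Pool.Agent.Q230.LS.Mem

/-!
# Long/short edge realizability on complete bipartite graphs is `∃ℝ`-complete

Hardness: reduction from the realizability of strict sign matrices by points and lines.  A row is a
vertex on one side, a column gives two vertices `q`, `q'` on the other side; the edge to `q` is short
and the edge to `q'` is long if the entry is `+`, and conversely if it is `-`.  In a realization the
bisector of `q` and `q'` separates the points as required.  Conversely a point/line realization is
scaled down, the two unit circles are placed tangentially on the two sides of the line, and a small
perturbation makes the drawing non-degenerate.
-/

namespace Pool.Agent.Results.MP_24b35c_lc.BipartiteComplete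

open Pool.Agent.NPC Pool.Agent.NPC.ER Pool.Agent.Q230.LS

/-- Long/short edge realizability restricted to complete bipartite graphs is `∃ℝ`-complete under
polynomial-time many-one reductions. -/
theorem result : ERComplete (lang LongShortBipartite) :=
  ⟨Pool.Agent.NPC.Q230LS.longShort_mem, Pool.Agent.NPC.Q230LS.longShort_hard⟩

end Pool.Agent.Results.MP_24b35c_lc.BipartiteComplete
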